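import Pool.Agent.Helper98.LM.St2

/-!
# Project LM, module NKP: the mean value over the `k` prime to `P`
-/

set_option autoImplicit false

noncomputable section

namespace Pool.Agent.Helper71.LM

open Finset
open Pool.Agent.Helper98.LM
open Pool.Agent.Helper15.AB (StMT)
open Pool.Agent.Helper30.LQ (StMR4)
open Pool.Agent.Helper30.LK (StMR3)

private theorem pow_NKP (Q : Finset ℕ) (p : ℕ → Prop) [DecidablePred p]
    [DecidablePred fun T : Finset ℕ => ∀ l ∈ T, p l] :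
    (Q.filter p).powerset = Q.powerset.filter (fun T => ∀ l ∈ T, p l) := by
  ext T
  rw [mem_powerset, mem_filter, mem_powerset]
  refine ⟨fun h => ⟨fun l hl => (mem_filter.1 (h hl)).1, fun l hl => (mem_filter.1 (h hl)).2⟩,
    fun h l hl => mem_filter.2 ⟨h.1 hl, h.2 l hl⟩⟩

/-- expansion of the product -/
private theorem exp_NKP (Q I : Finset ℕ) (A B : ℝ) (Y : ℕ) (hA : 0 ≤ A)
    (hI : ∀ k ∈ I, 1 ≤ k ∧ k ≤ Y)
    (hT : ∀ T ⊆ Q, ((I.filter (fun k : ℕ => ∀ l ∈ T, l ∣ k)).card : ℝ) ≤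
      A / ∏ l ∈ T, (l : ℝ) + B) :
    ∑ k ∈ I, ∏ l ∈ Q.filter (fun l => l ∣ k), (1 + 8 / (l : ℝ)) ≤
      A * ∏ l ∈ Q, (1 + 8 / (l : ℝ) ^ 2) +
        B * ∏ l ∈ Q.filter (fun l => l ≤ Y), (1 + 8 / (l : ℝ)) := by
  classical
  have h1 : ∀ k ∈ I, ∏ l ∈ Q.filter (fun l => l ∣ k), (1 + 8 / (l : ℝ)) =
      ∑ T ∈ Q.powerset, if (∀ l ∈ T, l ∣ k) then ∏ l ∈ T, (8 / (l : ℝ)) else 0 := by
    intro j _
    rw [Finset.prod_one_add, pow_NKP, Finset.sum_filter]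
  rw [Finset.sum_congr rfl h1, Finset.sum_comm]
  have h2 : ∀ T ∈ Q.powerset,
      ∑ k ∈ I, (if (∀ l ∈ T, l ∣ k) then ∏ l ∈ T, (8 / (l : ℝ)) else 0) ≤
      A * ∏ l ∈ T, (8 / (l : ℝ) ^ 2) +
        if (∀ l ∈ T, l ≤ Y) then B * ∏ l ∈ T, (8 / (l : ℝ)) else 0 := by
    intro T hTQ
    rw [Finset.mem_powerset] at hTQ
    have e : ∑ k ∈ I, (if (∀ l ∈ T, l ∣ k) then ∏ l ∈ T, (8 / (l : ℝ)) else 0) =
        ((I.filter (fun k => ∀ l ∈ T, l ∣ k)).card : ℝ) * ∏ l ∈ T, (8 / (l : ℝ)) := by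
      rw [← Finset.sum_filter, Finset.sum_const, nsmul_eq_mul]
    rw [e]
    have hpos : 0 ≤ ∏ l ∈ T, (8 / (l : ℝ)) := Finset.prod_nonneg fun l _ => by positivity
    have hpos2 : 0 ≤ ∏ l ∈ T, (8 / (l : ℝ) ^ 2) := Finset.prod_nonneg fun l _ => by positivity
    by_cases hY : ∀ l ∈ T, l ≤ Y
    · rw [if_pos hY]
      have h3 := mul_le_mul_of_nonneg_right (hT T hTQ) hpos
      refine h3.trans (le_of_eq ?_)
      have e2 : (∏ l ∈ T, (8 / (l : ℝ))) / ∏ l ∈ T, (l : ℝ) = ∏ l ∈ T, (8 / (l : ℝ) ^ 2) := by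
        rw [← Finset.prod_div_distrib]
        refine Finset.prod_congr rfl fun l _ => by rw [div_div, sq]
      rw [← e2]
      ring
    · rw [if_neg hY, add_zero]
      have hz : (I.filter (fun k => ∀ l ∈ T, l ∣ k)) = ∅ := by
        rw [Finset.filter_eq_empty_iff]
        intro j hj h
        apply hY
        intro l hl
        exact (Nat.le_of_dvd (hI j hj).1 (h l hl)).trans (hI j hj).2
      rw [hz, Finset.card_empty, Nat.cast_zero, zero_mul]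
      exact mul_nonneg hA hpos2
  refine (Finset.sum_le_sum h2).trans (le_of_eq ?_)
  rw [Finset.sum_add_distrib, ← Finset.mul_sum, ← Finset.sum_filter, ← Finset.mul_sum,
    ← pow_NKP Q (fun l => l ≤ Y), ← Finset.prod_one_add, ← Finset.prod_one_add]

/-- the count of the multiples -/
private theorem cnt_NKP (P K : ℕ) (hP : P ≠ 0) (T : Finset ℕ) (hT : ∀ l ∈ T, l.Prime) :
    ((((Icc 1 K).filter (fun k => Nat.Coprime k P)).filter
      (fun k : ℕ => ∀ l ∈ T, l ∣ k)).card : ℝ) ≤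
      (K * P.totient / P : ℝ) / ∏ l ∈ T, (l : ℝ) + P.totient := by
  obtain ⟨d, hd⟩ : ∃ d, d = ∏ l ∈ T, l := ⟨_, rfl⟩
  have hd0 : 0 < d := by
    rw [hd]
    exact prod_pos fun l hl => (hT l hl).pos
  have h1 : ((Icc 1 K).filter (fun k => Nat.Coprime k P)).filter (fun k : ℕ => ∀ l ∈ T, l ∣ k) ⊆
      ((Ico 1 (1 + K / d)).filter (fun x => P.Coprime x)).image (fun x => d * x) := by
    intro k hk
    rw [mem_filter, mem_filter, mem_Icc] at hk
    obtain ⟨⟨⟨a1, a2⟩, a3⟩, a4⟩ := hk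
    have h2 : d ∣ k := by
      rw [hd]
      exact Finset.prod_primes_dvd k (fun l hl => (hT l hl).prime) a4
    obtain ⟨x, rfl⟩ := h2
    rw [mem_image]
    refine ⟨x, ?_, rfl⟩
    rw [mem_filter, mem_Ico]
    have hx : 0 < x := by
      rcases Nat.eq_zero_or_pos x with h | h
      · subst h
        omega
      · exact h
    refine ⟨⟨hx, ?_⟩, ?_⟩
    · have : x ≤ K / d := (Nat.le_div_iff_mul_le hd0).2 (by rw [mul_comm]; exact a2)
      omega
    · exact (Nat.Coprime.coprime_mul_left a3).symm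
  have h3 := (card_le_card h1).trans card_image_le
  have h4 := h3.trans (Nat.Ico_filter_coprime_le 1 (K / d) hP)
  have hPR : (0 : ℝ) < P := by exact_mod_cast Nat.pos_of_ne_zero hP
  have hdR : (0 : ℝ) < d := by exact_mod_cast hd0
  have h5 : ((K / d / P : ℕ) : ℝ) ≤ (K : ℝ) / (d * P) := by
    rw [Nat.div_div_eq_div_mul]
    have := @Nat.cast_div_le ℝ _ _ _ K (d * P)
    push_cast at this
    exact this
  have h6 : ((((Icc 1 K).filter (fun k => Nat.Coprime k P)).filter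
      (fun k : ℕ => ∀ l ∈ T, l ∣ k)).card : ℝ) ≤ P.totient * (((K / d / P : ℕ) : ℝ) + 1) := by
    exact_mod_cast h4
  have h7 : (∏ l ∈ T, (l : ℝ)) = d := by
    rw [hd]
    push_cast
    rfl
  rw [h7]
  refine h6.trans ?_
  have h8 : (P.totient : ℝ) * (((K / d / P : ℕ) : ℝ) + 1) ≤
      P.totient * ((K : ℝ) / (d * P) + 1) :=
    mul_le_mul_of_nonneg_left (by linarith) (Nat.cast_nonneg _)
  refine h8.trans (le_of_eq ?_)
  field_simp

/-- the large product -/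
private theorem large_NKP (w : ℕ) (Z : ℝ) (hZ : Z = ∑' n : ℕ, 1 / (n : ℝ) ^ 2) :
    ∏ l ∈ Q1 w, (1 + 8 / (l : ℝ) ^ 2) ≤ Real.exp (8 * Z) := by
  have hsum2 : Summable (fun n : ℕ => 1 / (n : ℝ) ^ 2) := by
    exact_mod_cast Real.summable_one_div_nat_pow.2 (by norm_num : 1 < 2)
  have h1 : ∏ l ∈ Q1 w, (1 + 8 / (l : ℝ) ^ 2) ≤ Real.exp (∑ l ∈ Q1 w, 8 / (l : ℝ) ^ 2) := by
    rw [Real.exp_sum]
    refine prod_le_prod (fun l _ => by positivity) (fun l _ => ?_)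
    have := Real.add_one_le_exp (8 / (l : ℝ) ^ 2)
    linarith
  refine h1.trans (Real.exp_le_exp.2 ?_)
  have h2 : ∑ l ∈ Q1 w, 8 / (l : ℝ) ^ 2 = 8 * ∑ l ∈ Q1 w, 1 / (l : ℝ) ^ 2 := by
    rw [mul_sum]
    exact sum_congr rfl fun l _ => by ring
  rw [h2, hZ]
  exact mul_le_mul_of_nonneg_left (hsum2.sum_le_tsum _ (fun l _ => by positivity)) (by norm_num)

/-- the product over the small primes -/
private theorem small_NKP (C : ℝ) (hC : ∀ y : ℝ, 3 ≤ y →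
    |∑ l ∈ (Icc 1 ⌊y⌋₊).filter Nat.Prime, (1 : ℝ) / l - Real.log (Real.log y)| ≤ C)
    (w Y : ℕ) (hY : 3 ≤ Y) :
    ∏ l ∈ (Q1 w).filter (fun l => l ≤ Y), (1 + 8 / (l : ℝ)) ≤
      Real.exp (8 * C) * Real.log Y ^ 8 := by
  have hY3 : (3 : ℝ) ≤ Y := by exact_mod_cast hY
  have hlog : 0 < Real.log Y := Real.log_pos (by linarith)
  have h1 : ∏ l ∈ (Q1 w).filter (fun l => l ≤ Y), (1 + 8 / (l : ℝ)) ≤
      Real.exp (∑ l ∈ (Q1 w).filter (fun l => l ≤ Y), 8 / (l : ℝ)) := by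
    rw [Real.exp_sum]
    refine prod_le_prod (fun l _ => by positivity) (fun l _ => ?_)
    have := Real.add_one_le_exp (8 / (l : ℝ))
    linarith
  have h2 : ∑ l ∈ (Q1 w).filter (fun l => l ≤ Y), 8 / (l : ℝ) ≤
      8 * ∑ l ∈ (Icc 1 Y).filter Nat.Prime, (1 : ℝ) / l := by
    rw [mul_sum]
    have h3 : ∑ l ∈ (Icc 1 Y).filter Nat.Prime, 8 * ((1 : ℝ) / l) =
        ∑ l ∈ (Icc 1 Y).filter Nat.Prime, 8 / (l : ℝ) :=
      sum_congr rfl (fun l _ => by ring)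
    rw [h3]
    refine sum_le_sum_of_subset_of_nonneg ?_ (fun l _ _ => by positivity)
    intro l hl
    rw [mem_filter, Q1, mem_filter, mem_Ioc] at hl
    rw [mem_filter, mem_Icc]
    exact ⟨⟨hl.1.2.1.pos, hl.2⟩, hl.1.2.1⟩
  have h4 := (abs_le.1 (hC Y hY3)).2
  rw [Nat.floor_natCast] at h4
  calc ∏ l ∈ (Q1 w).filter (fun l => l ≤ Y), (1 + 8 / (l : ℝ)) ≤
        Real.exp (∑ l ∈ (Q1 w).filter (fun l => l ≤ Y), 8 / (l : ℝ)) := h1
    _ ≤ Real.exp (8 * C + ((8 : ℕ) : ℝ) * Real.log (Real.log Y)) := by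
        refine Real.exp_le_exp.2 ?_
        push_cast
        linarith
    _ = Real.exp (8 * C) * Real.log Y ^ 8 := by
        rw [Real.exp_add, Real.exp_nat_mul, Real.exp_log hlog]

/-- MODULE NKP -/
theorem hNKP (hM : StMT) : StNKP := by
  classical
  obtain ⟨C, hC, hM⟩ := hM
  obtain ⟨Z, hZ⟩ : ∃ Z, Z = ∑' n : ℕ, 1 / (n : ℝ) ^ 2 := ⟨_, rfl⟩
  refine ⟨Real.exp (8 * Z) + 1, by positivity, ?_⟩
  intro p
  obtain ⟨S, hS⟩ : ∃ S, S = (Icc 1 p).filter (fun q => q.Prime ∧ q % 3 = 2) := ⟨_, rfl⟩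
  have hSp : ∀ q ∈ S, q.Prime := fun q hq => by
    rw [hS, mem_filter] at hq
    exact hq.2.1
  obtain ⟨P, hP⟩ : ∃ P, P = P3 p := ⟨_, rfl⟩
  have hPS : P = ∏ q ∈ S, q := by
    rw [hP, hS]
    rfl
  have hP0 : 0 < P := by
    rw [hPS]
    exact prod_pos fun q hq => (hSp q hq).pos
  have hPR : (0 : ℝ) < P := by exact_mod_cast hP0
  have htot : (P.totient : ℝ) = P * ∏ q ∈ S, (1 - 1 / (q : ℝ)) := by
    have h1 := Nat.totient_eq_mul_prod_factors P
    have h2 : P.primeFactors = S := by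
      rw [hPS]
      exact Nat.primeFactors_prod hSp
    rw [h2] at h1
    have h3 := congrArg (fun x : ℚ => (x : ℝ)) h1
    push_cast at h3
    rw [h3]
    simp only [one_div]
  have hη : 0 < 1 / ((P : ℝ) * Real.exp (8 * C)) := by positivity
  have hlit := (Real.isLittleO_pow_log_id_atTop (n := 8)).bound hη
  obtain ⟨X₀, hX₀⟩ := Filter.eventually_atTop.1 hlit
  refine ⟨⌈X₀⌉₊ + 3, ?_⟩
  intro K w hK
  rw [← hS, ← hP]
  have hK3 : 3 ≤ K := by omega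
  have hK3R : (3 : ℝ) ≤ K := by exact_mod_cast hK3
  have hKX : X₀ ≤ K := by
    have h1 := Nat.le_ceil X₀
    have h2 : ((⌈X₀⌉₊ + 3 : ℕ) : ℝ) ≤ K := by exact_mod_cast hK
    push_cast at h2
    linarith
  have h1 := exp_NKP (Q1 w) ((Icc 1 K).filter (fun k => Nat.Coprime k P))
    (K * P.totient / P) P.totient K (by positivity)
    (fun k hk => by
      rw [mem_filter, mem_Icc] at hk
      exact hk.1)
    (fun T hT => cnt_NKP P K hP0.ne' T (fun l hl => by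
      have h := hT hl
      rw [Q1, mem_filter] at h
      exact h.2.1))
  have h2 := large_NKP w Z hZ
  have h3 := small_NKP C hM w K hK3
  have h4 : Real.exp (8 * C) * Real.log K ^ 8 ≤ K / P := by
    have h5 := hX₀ K hKX
    simp only [id, Real.norm_eq_abs] at h5
    have hlogx : 0 ≤ Real.log K := Real.log_nonneg (by linarith)
    rw [abs_of_nonneg (pow_nonneg hlogx 8), abs_of_nonneg (by linarith : (0 : ℝ) ≤ K)] at h5
    have h6 := mul_le_mul_of_nonneg_left h5 (Real.exp_pos (8 * C)).le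
    refine h6.trans (le_of_eq ?_)
    have hE : Real.exp (8 * C) ≠ 0 := (Real.exp_pos _).ne'
    field_simp
  have e1 : (K * P.totient / P : ℝ) = K * ∏ q ∈ S, (1 - 1 / (q : ℝ)) := by
    rw [htot]
    field_simp
  have h7 : (P.totient : ℝ) * ∏ l ∈ (Q1 w).filter (fun l => l ≤ K), (1 + 8 / (l : ℝ)) ≤
      K * ∏ q ∈ S, (1 - 1 / (q : ℝ)) := by
    refine (mul_le_mul_of_nonneg_left (h3.trans h4) (Nat.cast_nonneg _)).trans (le_of_eq ?_)
    rw [← e1]
    ring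
  have h8 : (K * P.totient / P : ℝ) * ∏ l ∈ Q1 w, (1 + 8 / (l : ℝ) ^ 2) ≤
      (K * P.totient / P : ℝ) * Real.exp (8 * Z) :=
    mul_le_mul_of_nonneg_left h2 (by positivity)
  rw [e1] at h8 h1
  calc _ ≤ _ := h1
    _ ≤ (K * ∏ q ∈ S, (1 - 1 / (q : ℝ))) * Real.exp (8 * Z) +
        K * ∏ q ∈ S, (1 - 1 / (q : ℝ)) :=
        add_le_add h8 h7
    _ = (Real.exp (8 * Z) + 1) * (K * ∏ q ∈ S, (1 - 1 / (q : ℝ))) := by ring

end Pool.Agent.Helper71.LM
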