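import Pool.Agent.Helper98.LM.St

/-!
# Project LM, module VLB: lower bound for the density
-/

set_option autoImplicit false

namespace Pool.Agent.Helper71.LM

open Finset
open Pool.Agent.Helper98.LM
open Pool.Agent.Helper18.TR (StFL)
open Pool.Agent.Helper15.AB (StMT)
open Pool.Agent.Helper30.LQ (StMR4)

private theorem fac_VLB {x : ℝ} (h0 : 0 ≤ x) (h1 : x ≤ 1 / 2) :
    Real.exp (-(x + 2 * x ^ 2)) ≤ 1 - x := by
  rw [Real.exp_neg]
  have h2 : 1 + x + 2 * x ^ 2 ≤ Real.exp (x + 2 * x ^ 2) := by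
    have := Real.add_one_le_exp (x + 2 * x ^ 2)
    linarith
  have h3 : 0 < 1 + x + 2 * x ^ 2 := by positivity
  calc (Real.exp (x + 2 * x ^ 2))⁻¹ ≤ (1 + x + 2 * x ^ 2)⁻¹ := inv_anti₀ h3 h2
    _ ≤ 1 - x := by
      rw [inv_le_iff_one_le_mul₀ h3]
      nlinarith [mul_nonneg (sq_nonneg x) (by linarith : 0 ≤ 1 - 2 * x)]

/-- MODULE VLB -/
theorem hVLB (hM : StMR4) : StVLB := by
  classical
  obtain ⟨C, hC, hM⟩ := hM
  have hsum2 : Summable (fun n : ℕ => 1 / (n : ℝ) ^ 2) := by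
    exact_mod_cast Real.summable_one_div_nat_pow.2 (by norm_num : 1 < 2)
  obtain ⟨Z, hZ⟩ : ∃ Z, Z = ∑' n : ℕ, 1 / (n : ℝ) ^ 2 := ⟨_, rfl⟩
  refine ⟨Real.exp (-(2 * C + 8 * Z)), Real.exp_pos _, ?_⟩
  intro p w hp hw
  have hw3 : (3 : ℝ) ≤ w := by exact_mod_cast hw
  have hlog : 0 < Real.log w := Real.log_pos (by linarith)
  have h1 : ∀ l ∈ QQ p w,
      Real.exp (-(if l % 3 = 1 then 2 / (l : ℝ) + 8 * (1 / (l : ℝ) ^ 2) else 0)) ≤
        1 - (rh l : ℝ) / l := by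
    intro l hl
    unfold QQ at hl
    rw [mem_filter, mem_Ioc] at hl
    obtain ⟨⟨h1, h2⟩, h3⟩ := hl
    have hl7 : (7 : ℝ) < l := by exact_mod_cast (by omega : 7 < l)
    unfold rh
    split_ifs with h
    · have hx : (2 : ℝ) / l ≤ 1 / 2 := by
        rw [div_le_iff₀ (by linarith)]
        linarith
      have := fac_VLB (x := 2 / (l : ℝ)) (by positivity) hx
      refine le_trans (le_of_eq ?_) (this.trans (le_of_eq ?_))
      · congr 1
        ring
      · norm_num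
    · simp
  have h2 : Real.exp (-∑ l ∈ QQ p w,
      (if l % 3 = 1 then 2 / (l : ℝ) + 8 * (1 / (l : ℝ) ^ 2) else 0)) ≤ VV p w := by
    unfold VV
    rw [← Finset.sum_neg_distrib, Real.exp_sum]
    exact Finset.prod_le_prod (fun l _ => (Real.exp_pos _).le) h1
  have h3 : ∑ l ∈ QQ p w, (if l % 3 = 1 then 2 / (l : ℝ) + 8 * (1 / (l : ℝ) ^ 2) else 0) ≤
      Real.log (Real.log w) + (2 * C + 8 * Z) := by
    rw [← Finset.sum_filter]
    have hsub : (QQ p w).filter (fun l => l % 3 = 1) ⊆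
        (Icc 1 ⌊(w : ℝ)⌋₊).filter (fun l => l.Prime ∧ l % 3 = 1) := by
      intro l hl
      unfold QQ at hl
      rw [mem_filter, mem_filter, mem_Ioc] at hl
      rw [Nat.floor_natCast, mem_filter, mem_Icc]
      obtain ⟨⟨⟨h1, h2⟩, h3⟩, h4⟩ := hl
      exact ⟨⟨h3.one_le, h2⟩, h3, h4⟩
    rw [Finset.sum_add_distrib]
    have a1 : ∑ l ∈ (QQ p w).filter (fun l => l % 3 = 1), 2 / (l : ℝ) ≤
        Real.log (Real.log w) + 2 * C := by
      have b1 := Finset.sum_le_sum_of_subset_of_nonneg (f := fun l : ℕ => (1 : ℝ) / l) hsub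
        (fun l _ _ => by positivity)
      have b2 := hM w hw3
      have b3 : ∑ l ∈ (QQ p w).filter (fun l => l % 3 = 1), 2 / (l : ℝ) =
          2 * ∑ l ∈ (QQ p w).filter (fun l => l % 3 = 1), (1 : ℝ) / (l : ℝ) := by
        rw [Finset.mul_sum]
        exact Finset.sum_congr rfl fun l _ => by ring
      linarith
    have a2 : ∑ l ∈ (QQ p w).filter (fun l => l % 3 = 1), 8 * (1 / (l : ℝ) ^ 2) ≤ 8 * Z := by
      rw [← Finset.mul_sum, hZ]
      exact mul_le_mul_of_nonneg_left (hsum2.sum_le_tsum _ (fun l _ => by positivity))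
        (by norm_num)
    linarith
  calc Real.exp (-(2 * C + 8 * Z)) / Real.log w =
      Real.exp (-(Real.log (Real.log w) + (2 * C + 8 * Z))) := by
        rw [neg_add (Real.log (Real.log w)), Real.exp_add, Real.exp_neg (Real.log (Real.log w)),
          Real.exp_log hlog]
        ring
    _ ≤ Real.exp (-∑ l ∈ QQ p w,
        (if l % 3 = 1 then 2 / (l : ℝ) + 8 * (1 / (l : ℝ) ^ 2) else 0)) :=
        Real.exp_le_exp.2 (neg_le_neg h3)
    _ ≤ VV p w := h2

end Pool.Agent.Helper71.LM
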